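import Pool.Agent.helper73.BS.Spec

/-!
# Project bs, row AD: additivity of the unipotent part
-/

set_option autoImplicit false

namespace Pool.Agent.BS

open Matrix Module Pool.Agent.UG

/-- an element which commutes with `y` commutes with the polynomials in `y` -/
theorem AD_comm1 {n : ℕ} {y z a : MQ n} (h : Commute y z) (ha : a ∈ Algebra.adjoin ℚ {y}) :
    Commute a z := by
  have h1 : Algebra.adjoin ℚ {y} ≤ Subalgebra.centralizer ℚ {z} := by
    apply Algebra.adjoin_le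
    intro x hx
    rw [Set.mem_singleton_iff] at hx
    subst hx
    rw [SetLike.mem_coe, Subalgebra.mem_centralizer_iff]
    intro g hg
    rw [Set.mem_singleton_iff] at hg
    subst hg
    exact h.symm
  have h2 := (Subalgebra.mem_centralizer_iff ℚ).1 (h1 ha) z (Set.mem_singleton z)
  exact h2.symm

/-- polynomials in commuting elements commute -/
theorem AD_comm2 {n : ℕ} {y z a b : MQ n} (h : Commute y z) (ha : a ∈ Algebra.adjoin ℚ {y})
    (hb : b ∈ Algebra.adjoin ℚ {z}) : Commute a b :=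
  (AD_comm1 (AD_comm1 h ha).symm hb).symm

/-- the exponential of a conjugate -/
theorem AD_conj {n : ℕ} {a b X : MQ n} (hab : a * b = 1) (hba : b * a = 1) (hX : IsNilpotent X) :
    IsNilpotent (a * X * b) ∧ IsNilpotent.exp (a * X * b) = a * IsNilpotent.exp X * b := by
  have hp : ∀ i : ℕ, (a * X * b) ^ i = a * X ^ i * b := by
    intro i
    induction i with
    | zero => rw [pow_zero, pow_zero, mul_one, hab]
    | succ i ih =>
      rw [pow_succ, ih, pow_succ]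
      calc a * X ^ i * b * (a * X * b) = a * X ^ i * (b * a) * X * b := by noncomm_ring
        _ = a * (X ^ i * X) * b := by rw [hba]; noncomm_ring
  obtain ⟨m, hm⟩ := hX
  have hm' : (a * X * b) ^ m = 0 := by rw [hp, hm, mul_zero, zero_mul]
  refine ⟨⟨m, hm'⟩, ?_⟩
  rw [IsNilpotent.exp_eq_sum hm', IsNilpotent.exp_eq_sum hm, Finset.mul_sum, Finset.sum_mul]
  apply Finset.sum_congr rfl
  intro i _
  rw [hp, mul_smul_comm, smul_mul_assoc]

/-- the Jordan decomposition of a product of commuting elements -/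
theorem AD_JD {n : ℕ} {y z s N s' N' : MQ n} (h : Commute y z) (hy : JD y s N) (hz : JD z s' N')
    (hs : s ∈ Algebra.adjoin ℚ {y}) (hN : N ∈ Algebra.adjoin ℚ {y})
    (hs' : s' ∈ Algebra.adjoin ℚ {z}) (hN' : N' ∈ Algebra.adjoin ℚ {z}) :
    JD (y * z) (s * s') (N + N') := by
  obtain ⟨a1, a2, a3, a4⟩ := hy
  obtain ⟨b1, b2, b3, b4⟩ := hz
  have c1 : Commute s s' := AD_comm2 h hs hs'
  have c2 : Commute s N' := AD_comm2 h hs hN'
  have c3 : Commute N s' := AD_comm2 h hN hs'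
  have c4 : Commute N N' := AD_comm2 h hN hN'
  refine ⟨c4.isNilpotent_add a1 b1, ?_, ?_, ?_⟩
  · exact (a2.mul_left c3.symm).add_right (c2.mul_left b2)
  · have e : Matrix.toLin' (s * s') = Matrix.toLin' s * Matrix.toLin' s' := Matrix.toLin'_mul s s'
    rw [e]
    apply Module.End.IsSemisimple.mul_of_commute _ a3 b3
    show Matrix.toLin' s * Matrix.toLin' s' = Matrix.toLin' s' * Matrix.toLin' s
    have e' : Matrix.toLin' (s' * s) = Matrix.toLin' s' * Matrix.toLin' s := Matrix.toLin'_mul s' s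
    rw [← e, ← e', c1.eq]
  · rw [IsNilpotent.exp_add_of_commute c4 a1 b1, a4, b4]
    have e : Commute (IsNilpotent.exp N) s' := by
      obtain ⟨m, hm⟩ := a1
      rw [IsNilpotent.exp_eq_sum hm]
      exact Commute.sum_left _ _ _ fun i _ => (c3.pow_left i).smul_left _
    calc s * IsNilpotent.exp N * (s' * IsNilpotent.exp N')
        = s * (IsNilpotent.exp N * s') * IsNilpotent.exp N' := by noncomm_ring
      _ = s * (s' * IsNilpotent.exp N) * IsNilpotent.exp N' := by rw [e.eq]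
      _ = s * s' * (IsNilpotent.exp N * IsNilpotent.exp N') := by noncomm_ring

theorem AD (hFF : FF_stmt) (hJE : JE_stmt) (hGI : GI_stmt) (hZG : ZG_stmt) (hZC : ZC_stmt)
    (hZE : ZE_stmt) (hRS : RS_stmt) (hEI : EI_stmt) (hEXJ : UG.EXJ_stmt) : AD_stmt := by
  intro n P 𝔲 k W hFS hinj hgen g hg h hh s N s' N' s'' N'' hJg hJh hJgh
  obtain ⟨F1, F2, F3, F4⟩ := hFF n P 𝔲 k W hFS
  obtain ⟨G1, G2⟩ := hZG n P
  obtain ⟨u, ⟨hu1, hu2⟩, hu3⟩ := ((((hgen g hg).and (hgen h hh)).and (hGI n 𝔲 hinj))).exists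
  obtain ⟨X, hX, hXu⟩ := hu1
  obtain ⟨Y, hY, hYu⟩ := hu2
  rw [Submodule.mem_bot, sub_eq_zero] at hXu hYu
  have hgZ : qg g ∈ ZQ (mz P) := subset_ZQ _ ⟨g, hg, rfl⟩
  have hhZ : qg h ∈ ZQ (mz P) := subset_ZQ _ ⟨h, hh, rfl⟩
  have hexp : ∀ X ∈ ff P 𝔲, IsNilpotent.exp X ∈ ZQ (mz P) := by
    intro X hX
    have h1 := (F1 X hX).2 1
    rwa [one_smul] at h1
  have hnil : ∀ X ∈ ff P 𝔲, IsNilpotent X := fun X hX =>
    fil_one_nil hFS.bot hFS.top ((mem_fil_one hFS.bot).2 (F1 X hX).1)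
  set y : MQ n := IsNilpotent.exp X * qg g with hydef
  set z : MQ n := IsNilpotent.exp Y * qg h with hzdef
  have hyZ : y ∈ ZQ (mz P) := G1 _ (hexp X hX) _ hgZ
  have hzZ : z ∈ ZQ (mz P) := G1 _ (hexp Y hY) _ hhZ
  have hyu : y *ᵥ u = u := by rw [hydef, ← mulVec_mulVec]; exact hXu
  have hzu : z *ᵥ u = u := by rw [hzdef, ← mulVec_mulVec]; exact hYu
  have hyd : y.det = 1 := (G2 y hyZ).1
  have hzd : z.det = 1 := (G2 z hzZ).1
  have hyU : IsUnit y.det := by rw [hyd]; exact isUnit_one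
  have hzU : IsUnit z.det := by rw [hzd]; exact isUnit_one
  -- the commutator
  have hcom : y * z * y⁻¹ * z⁻¹ ∈ Ex 𝔲 :=
    hZC n P (Ex 𝔲) (hZE n 𝔲 k W hFS.bot hFS.top hFS.down) hFS.com y hyZ z hzZ
  obtain ⟨Z, hZ, hZe⟩ := hcom
  have hyi : y⁻¹ *ᵥ u = u := by
    calc y⁻¹ *ᵥ u = y⁻¹ *ᵥ (y *ᵥ u) := by rw [hyu]
      _ = u := by rw [mulVec_mulVec, Matrix.nonsing_inv_mul _ hyU, one_mulVec]
  have hzi : z⁻¹ *ᵥ u = u := by
    calc z⁻¹ *ᵥ u = z⁻¹ *ᵥ (z *ᵥ u) := by rw [hzu]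
      _ = u := by rw [mulVec_mulVec, Matrix.nonsing_inv_mul _ hzU, one_mulVec]
  have hZu : IsNilpotent.exp Z *ᵥ u = u := by
    rw [← hZe, ← mulVec_mulVec, ← mulVec_mulVec, ← mulVec_mulVec, hzi, hyi, hzu, hyu]
  have hZn : IsNilpotent Z := hnil Z (Submodule.mem_sup_left hZ)
  have hZ0 : Z = 0 := hu3 Z hZ ((hEXJ n Z hZn).2.1 u hZu)
  rw [hZ0, IsNilpotent.exp_zero] at hZe
  have hyz : Commute y z := by
    show y * z = z * y
    calc y * z = (y * z * y⁻¹ * z⁻¹) * z * y := by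
          rw [Matrix.mul_assoc (y * z * y⁻¹) z⁻¹ z, Matrix.nonsing_inv_mul _ hzU, Matrix.mul_one,
            Matrix.mul_assoc (y * z) y⁻¹ y, Matrix.nonsing_inv_mul _ hyU, Matrix.mul_one]
      _ = z * y := by rw [hZe, Matrix.one_mul]
  -- Jordan decompositions
  obtain ⟨sy, Ny, hJy, hsy, hNy, -⟩ := hJE n y hyU
  obtain ⟨sz, Nz, hJz, hsz, hNz, -⟩ := hJE n z hzU
  have hJyz : JD (y * z) (sy * sz) (Ny + Nz) := AD_JD hyz hJy hJz hsy hNy hsz hNz
  -- the product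
  have hgU : IsUnit (qg g).det := by rw [(G2 _ hgZ).1]; exact isUnit_one
  obtain ⟨hY1, hY2⟩ := F3 Y hY (qg g) hgZ
  obtain ⟨-, hcj⟩ := AD_conj (Matrix.mul_nonsing_inv _ hgU) (Matrix.nonsing_inv_mul _ hgU) (hnil Y hY)
  obtain ⟨Z', hZ'f, hZ'e, hZ'u⟩ := F2 X hX _ hY1
  have hprod : y * z = IsNilpotent.exp Z' * qg (g * h) := by
    rw [← hZ'e, hcj, qg_mul, hydef, hzdef]
    calc IsNilpotent.exp X * qg g * (IsNilpotent.exp Y * qg h)
        = IsNilpotent.exp X * (qg g * IsNilpotent.exp Y * (1 : MQ n)) * qg h := by noncomm_ring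
      _ = IsNilpotent.exp X * (qg g * IsNilpotent.exp Y * ((qg g)⁻¹ * qg g)) * qg h := by
          rw [Matrix.nonsing_inv_mul _ hgU]
      _ = IsNilpotent.exp X * (qg g * IsNilpotent.exp Y * (qg g)⁻¹) * (qg g * qg h) := by
          noncomm_ring
  have e1 := (F4 X hX g hg sy Ny s N hJy hJg).2
  have e2 := (F4 Y hY h hh sz Nz s' N' hJz hJh).2
  have e3 := (F4 Z' hZ'f (g * h) (P.mul_mem hg hh) (sy * sz) (Ny + Nz) s'' N''
    (by rw [← hprod]; exact hJyz) hJgh).2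
  have key : N'' - N - N' = (Ny - X - N) + (Nz - Y - N') - (Ny + Nz - Z' - N'')
      - (Z' - X - qg g * Y * (qg g)⁻¹) - (qg g * Y * (qg g)⁻¹ - Y) := by abel
  rw [key]
  exact 𝔲.sub_mem (𝔲.sub_mem (𝔲.sub_mem (𝔲.add_mem e1 e2) e3) hZ'u) hY2

end Pool.Agent.BS
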