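import Pool.Agent.helper73.BS.Spec

/-!
# Row bs:GL (MP_a2a22c_al): generic solution of linear systems
-/

set_option autoImplicit false

namespace Pool.Agent.BS

open Matrix Module Pool.Agent.UG

theorem GL_thm : GL_stmt := by
  classical
  intro n m r A b hgen
  have hinj : Function.Injective (algebraMap (MvPolynomial (Fin n) ℚ) (FractionRing (MvPolynomial (Fin n) ℚ))) :=
    IsFractionRing.injective _ _
  by_cases h : ∃ y : Fin r → FractionRing (MvPolynomial (Fin n) ℚ), ∀ i, ∑ j, algebraMap _ _ (A i j) * y j =
      algebraMap (MvPolynomial (Fin n) ℚ) (FractionRing (MvPolynomial (Fin n) ℚ)) (b i)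
  · obtain ⟨y, hy⟩ := h
    obtain ⟨d, hd⟩ := IsLocalization.exist_integer_multiples_of_finite
      (nonZeroDivisors (MvPolynomial (Fin n) ℚ)) y
    choose x hx using hd
    refine ⟨x, (d : MvPolynomial (Fin n) ℚ), nonZeroDivisors.ne_zero d.2, ?_⟩
    have key : ∀ i, ∑ j, A i j * x j = (d : MvPolynomial (Fin n) ℚ) * b i := by
      intro i
      apply hinj
      rw [map_sum, map_mul, ← hy i, Finset.mul_sum]
      refine Finset.sum_congr rfl fun j _ => ?_
      rw [map_mul, hx j, Algebra.smul_def]
      ring
    intro u i
    have h1 := congrArg (MvPolynomial.eval u) (key i)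
    rw [map_sum, map_mul] at h1
    rw [← h1]
    exact Finset.sum_congr rfl fun j _ => (map_mul _ _ _).symm
  · exfalso
    apply hgen
    let K := FractionRing (MvPolynomial (Fin n) ℚ)
    let A' : Matrix (Fin m) (Fin r) K := fun i j => algebraMap _ K (A i j)
    let b' : Fin m → K := fun i => algebraMap _ K (b i)
    have hb : b' ∉ LinearMap.range A'.mulVecLin := by
      rintro ⟨y, hy⟩
      exact h ⟨y, fun i => congrFun hy i⟩
    obtain ⟨f, hf1, hf2⟩ := Submodule.exists_dual_map_eq_bot_of_notMem hb inferInstance
    have hf3 : ∀ y : Fin r → K, f (A' *ᵥ y) = 0 := by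
      intro y
      have h1 : f (A' *ᵥ y) ∈ (LinearMap.range A'.mulVecLin).map f := ⟨A' *ᵥ y, ⟨y, rfl⟩, rfl⟩
      rw [hf2] at h1
      exact (Submodule.mem_bot K).1 h1
    obtain ⟨d, hd⟩ := IsLocalization.exist_integer_multiples_of_finite
      (nonZeroDivisors (MvPolynomial (Fin n) ℚ)) (fun i : Fin m => f (Pi.single i 1))
    choose z hz using hd
    have hd0 : algebraMap (MvPolynomial (Fin n) ℚ) K (d : MvPolynomial (Fin n) ℚ) ≠ 0 := by
      intro h0
      rw [← map_zero (algebraMap (MvPolynomial (Fin n) ℚ) K)] at h0
      exact nonZeroDivisors.ne_zero d.2 (hinj h0)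
    have hfv : ∀ v : Fin m → K, algebraMap (MvPolynomial (Fin n) ℚ) K (d : MvPolynomial (Fin n) ℚ) * f v =
        ∑ i, algebraMap _ K (z i) * v i := by
      intro v
      have h1 : f v = ∑ i, v i * f (Pi.single i 1) := by
        conv_lhs => rw [pi_eq_sum_univ' v]
        rw [map_sum]
        refine Finset.sum_congr rfl fun i _ => ?_
        rw [map_smul, smul_eq_mul]
      rw [h1, Finset.mul_sum]
      refine Finset.sum_congr rfl fun i _ => ?_
      rw [hz i, Algebra.smul_def]
      ring
    refine ⟨∑ i, z i * b i, ?_, ?_⟩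
    · intro h0
      have h1 := hfv b'
      have h2 : ∑ i, algebraMap _ K (z i) * b' i = algebraMap _ K (∑ i, z i * b i) := by
        rw [map_sum]
        exact Finset.sum_congr rfl fun i _ => (map_mul _ _ _).symm
      rw [h2, h0, map_zero] at h1
      rcases mul_eq_zero.1 h1 with h3 | h3
      · exact hd0 h3
      · exact hf1 h3
    · have hcol : ∀ j, ∑ i, z i * A i j = 0 := by
        intro j
        apply hinj
        have h1 := hfv (A' *ᵥ (Pi.single j 1))
        rw [hf3, mul_zero] at h1
        rw [map_zero, h1, map_sum]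
        refine Finset.sum_congr rfl fun i _ => ?_
        rw [map_mul, Matrix.mulVec_single_one]
        rfl
      intro u hu
      rintro ⟨x, hx⟩
      apply hu
      rw [map_sum]
      calc ∑ i, MvPolynomial.eval u (z i * b i) =
          ∑ i, ∑ j, MvPolynomial.eval u (z i) * (MvPolynomial.eval u (A i j) * x j) := by
            refine Finset.sum_congr rfl fun i _ => ?_
            rw [map_mul, ← hx i, Finset.mul_sum]
        _ = ∑ j, ∑ i, MvPolynomial.eval u (z i) * (MvPolynomial.eval u (A i j) * x j) := Finset.sum_comm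
        _ = ∑ j, MvPolynomial.eval u (∑ i, z i * A i j) * x j := by
            refine Finset.sum_congr rfl fun j _ => ?_
            rw [map_sum, Finset.sum_mul]
            refine Finset.sum_congr rfl fun i _ => ?_
            rw [map_mul]
            ring
        _ = 0 := by
            refine Finset.sum_eq_zero fun j _ => ?_
            rw [hcol j, map_zero, zero_mul]

end Pool.Agent.BS
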