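import Pool.Agent.helper73.BS.Spec2

/-!
# Project bs, row HV: Hirsch length at least `n` gives elements of infinite order which fix a vector
-/

set_option autoImplicit false

namespace Pool.Agent.BS

open Matrix Module Pool.Agent.UG Pool.Agent.H48SL Pool.Agent.SHL

/-- the action on `ℚ ^ n` -/
noncomputable def HV_rho {n : ℕ} (P : Subgroup (SLZ n)) : P →* Module.End ℚ (VQ n) where
  toFun g := Matrix.toLin' (qg (g : SLZ n))
  map_one' := by
    show Matrix.toLin' (qg (1 : SLZ n)) = 1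
    rw [qg_one, Matrix.toLin'_one]
    rfl
  map_mul' := by
    intro a b
    show Matrix.toLin' (qg ((a : SLZ n) * (b : SLZ n))) = _
    rw [qg_mul, Matrix.toLin'_mul]
    rfl

theorem HV_int {n : ℕ} (P : Subgroup (SLZ n)) (g : P) : IsIntegral ℤ (HV_rho P g) := by
  have h1 : IsIntegral ℤ ((g : SLZ n) : Matrix (Fin n) (Fin n) ℤ) := Matrix.isIntegral _
  obtain ⟨p, hp, hp0⟩ := h1
  refine ⟨p, hp, ?_⟩
  let φ : Matrix (Fin n) (Fin n) ℤ →+* Module.End ℚ (VQ n) :=
    ((Matrix.toLinAlgEquiv' (R := ℚ) (n := Fin n)).toRingEquiv.toRingHom).comp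
      ((Int.castRingHom ℚ).mapMatrix)
  have h2 : HV_rho P g = φ ((g : SLZ n) : Matrix (Fin n) (Fin n) ℤ) := rfl
  have h3 : algebraMap ℤ (Module.End ℚ (VQ n)) = φ.comp (algebraMap ℤ (Matrix (Fin n) (Fin n) ℤ)) :=
    Subsingleton.elim _ _
  rw [h2, h3, ← Polynomial.hom_eval₂, hp0, map_zero]

theorem HV (hHA : SHL.HA_stmt) (hHL : HL_stmt) : HV_stmt := by
  intro n hn P hP hHi u
  by_cases hu : u = 0
  · obtain ⟨m, rfl⟩ : ∃ m, n = m + 1 := ⟨n - 1, by omega⟩
    obtain ⟨K, L, hKL, hLP, -, ⟨g, hg, hgj⟩, -⟩ := hHi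
    refine ⟨g, hLP hg, fun j hj h => hgj j hj (by rw [h]; exact K.one_mem), ?_⟩
    rw [hu, mulVec_zero]
  · have h1 : Hi n (⊤ : Subgroup P) := by
      have h2 := (hHA (SLZ n)).2.2.2.2.2 P P.subtype P.subtype_injective n P
        (by rw [Subgroup.range_subtype]) hHi
      have h3 : P.comap P.subtype = ⊤ := by
        rw [eq_top_iff]
        intro x _
        exact x.2
      rwa [h3] at h2
    have h4 := hHL (VQ n) P hP (HV_rho P) (HV_int P) 0 u hu (by
      rw [zero_add, Module.finrank_fin_fun]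
      exact h1)
    obtain ⟨K, L, hKL, hLP, -, ⟨g, hg, hgj⟩, -⟩ := h4
    refine ⟨g, g.2, ?_, ?_⟩
    · intro j hj h
      apply hgj j hj
      have h5 : g ^ j = 1 := by
        apply Subtype.ext
        rw [Subgroup.coe_pow, h]
        rfl
      rw [h5]
      exact K.one_mem
    · have h6 : HV_rho P g u = u := hLP hg
      exact h6

end Pool.Agent.BS
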